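import Pool.Agent.J4H50.YJ.Cy

set_option autoImplicit false
set_option linter.unusedSectionVars false

/-! # Project YJ: (P1) units, (P3) exchange of the coordinates

The common lemma: the arcs in the plane with `oc c (x 0)` and `oc c' (x 1)` have the volume
`mo v c * mo v c'`. -/

namespace Pool.Agent.J4H40.YJ

open MvPolynomial
open Pool.Agent.W428.MOT
open Pool.Agent.TH192.MT (ar)
open Pool.Agent.J4H50.YJ

section

variable {K : Type} [Field K] {R : Type} [CommRing R]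

/-- `oc c x` in terms of divisibility by powers of `t` -/
theorem Od_iff {F : Type} [Field F] (x : PowerSeries F) (l : ℕ) :
    Od x l ↔ PowerSeries.X ^ l ∣ x ∧ ¬ PowerSeries.X ^ (l + 1) ∣ x := by
  rw [PowerSeries.X_pow_dvd_iff, PowerSeries.X_pow_dvd_iff]
  constructor
  · rintro ⟨h1, h2⟩
    exact ⟨h1, fun h3 => h2 (h3 l (Nat.lt_succ_self l))⟩
  · rintro ⟨h1, h2⟩
    refine ⟨h1, fun h3 => h2 fun m hm => ?_⟩
    rcases Nat.lt_succ_iff_lt_or_eq.1 hm with h4 | h4
    · exact h1 m h4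
    · rw [h4]; exact h3

theorem oc_none_iff {F : Type} [Field F] (x : PowerSeries F) :
    oc none x ↔ PowerSeries.X ^ 1 ∣ x := by
  rw [PowerSeries.X_pow_dvd_iff]
  constructor
  · intro h m hm
    rw [Nat.lt_one_iff.1 hm]
    exact h
  · intro h
    exact h 0 Nat.one_pos

/-- `t ^ a ∣ x 0`, `t ^ b ∣ x 1` -/
def DD (K : Type) [Field K] (a b : ℕ) : Set (Ac K (Fin 2)) :=
  {x | PowerSeries.X ^ a ∣ x 0 ∧ PowerSeries.X ^ b ∣ x 1}

/-- `oc c (x 0)`, `t ^ b ∣ x 1` -/
def EE (K : Type) [Field K] (c : Option ℕ) (b : ℕ) : Set (Ac K (Fin 2)) :=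
  {x | oc c (x 0) ∧ PowerSeries.X ^ b ∣ x 1}

/-- `oc c (x 0)`, `oc c' (x 1)` -/
def FF (K : Type) [Field K] (c c' : Option ℕ) : Set (Ac K (Fin 2)) :=
  {x | oc c (x 0) ∧ oc c' (x 1)}

variable (M : Meas K R) (v : R) (hv : M.L * v = 1)

include hv in
theorem vDD (hB : Bas) (a b : ℕ) : IsCyl (DD K a b) ∧ vol M v (DD K a b) = v ^ (a + b) := by
  have hu := (cyl_ops M v hv hB.v1 (σ := Fin 2)).2.2.2.1
  have h := hB.sc M v hv (σ := Fin 2) ![a, b] Set.univ hu
  have e : {x : Ac K (Fin 2) | ∃ y ∈ (Set.univ : Set (Ac K (Fin 2))),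
      ∀ i, x i = PowerSeries.X ^ (![a, b] i) * y i} = DD K a b := by
    ext x
    simp only [Set.mem_ofPred_eq, Set.mem_univ, true_and, DD, Fin.forall_fin_two,
      Matrix.cons_val_zero, Matrix.cons_val_one]
    constructor
    · rintro ⟨y, h0, h1⟩
      exact ⟨⟨y 0, h0⟩, ⟨y 1, h1⟩⟩
    · rintro ⟨⟨y0, h0⟩, ⟨y1, h1⟩⟩
      exact ⟨![y0, y1], h0, h1⟩
  rw [e] at h
  refine ⟨h.1, ?_⟩
  rw [h.2, (hB.v1 M v hv (σ := Fin 2)).2.2.2.1, mul_one, Fin.sum_univ_two]
  rfl

include hv in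
theorem vEE (hB : Bas) (c : Option ℕ) (b : ℕ) :
    IsCyl (EE K c b) ∧ vol M v (EE K c b) = mo v c * v ^ b := by
  cases c with
  | none =>
    have e : EE K none b = DD K 1 b := by
      ext x
      simp only [EE, DD, Set.mem_ofPred_eq, oc_none_iff]
    rw [e, (vDD M v hv hB 1 b).2, mo, pow_add, pow_one]
    exact ⟨(vDD M v hv hB 1 b).1, rfl⟩
  | some i =>
    have h1 := vDD M v hv hB i b
    have h2 := vDD M v hv hB (i + 1) b
    have e : EE K (some i) b = {x | x ∈ DD K i b ∧ x ∉ DD K (i + 1) b} := by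
      ext x
      simp only [EE, DD, Set.mem_ofPred_eq, oc, Od_iff]
      tauto
    have h3 := vol_diff M v hv hB.v1 (DD K i b) (DD K (i + 1) b) h1.1 h2.1
      (fun x hx => ⟨(pow_dvd_pow _ (Nat.le_succ i)).trans hx.1, hx.2⟩)
    rw [e]
    refine ⟨(cyl_ops M v hv hB.v1).2.1 _ _ h1.1 ((cyl_ops M v hv hB.v1).1 _ h2.1), ?_⟩
    rw [h3, h1.2, h2.2, mo]
    ring

include hv in
/-- the common lemma -/
theorem vFF (hB : Bas) (c c' : Option ℕ) :
    IsCyl (FF K c c') ∧ vol M v (FF K c c') = mo v c * mo v c' := by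
  cases c' with
  | none =>
    have e : FF K c none = EE K c 1 := by
      ext x
      simp only [EE, FF, Set.mem_ofPred_eq, oc_none_iff]
    rw [e, (vEE M v hv hB c 1).2, pow_one]
    exact ⟨(vEE M v hv hB c 1).1, rfl⟩
  | some i =>
    have h1 := vEE M v hv hB c i
    have h2 := vEE M v hv hB c (i + 1)
    have e : FF K c (some i) = {x | x ∈ EE K c i ∧ x ∉ EE K c (i + 1)} := by
      ext x
      have h4 : oc (some i) (x 1) ↔ Od (x 1) i := Iff.rfl
      simp only [EE, FF, Set.mem_ofPred_eq, h4, Od_iff]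
      tauto
    have h3 := vol_diff M v hv hB.v1 (EE K c i) (EE K c (i + 1)) h1.1 h2.1
      (fun x hx => ⟨hx.1, (pow_dvd_pow _ (Nat.le_succ i)).trans hx.2⟩)
    rw [e]
    refine ⟨(cyl_ops M v hv hB.v1).2.1 _ _ h1.1 ((cyl_ops M v hv hB.v1).1 _ h2.1), ?_⟩
    rw [h3, h1.2, h2.2]
    simp only [mo]
    ring

/-- the constant coefficient of `h(x)` -/
theorem coeff_zero_aeval {σ : Type} (x : Ac K σ) (h : MvPolynomial σ K) :
    PowerSeries.coeff 0 (aeval x h) = aeval (fun i => PowerSeries.coeff 0 (x i)) h := by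
  have h1 : PowerSeries.coeff 0 (aeval x h) =
      (PowerSeries.constantCoeff (R := AlgebraicClosure K)) (aeval x h) := by
    rw [PowerSeries.coeff_zero_eq_constantCoeff_apply]
  rw [h1, aeval_def, aeval_def, hom_eval₂]
  congr 1
  funext i
  rw [PowerSeries.coeff_zero_eq_constantCoeff_apply]

theorem oc_zero {F : Type} [Field F] {c : Option ℕ} {x : PowerSeries F} (h : oc c x)
    (hc : ∀ i, c = some i → 1 ≤ i) : PowerSeries.coeff 0 x = 0 := by
  cases c with
  | none => exact h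
  | some i => exact h.1 0 (hc i rfl)

/-- at the origin, `h(x)(0) = h(0)` -/
theorem coeff_zero_at {h : MvPolynomial (Fin 2) K} {x : Ac K (Fin 2)}
    (h0 : PowerSeries.coeff 0 (x 0) = 0) (h1 : PowerSeries.coeff 0 (x 1) = 0) :
    PowerSeries.coeff 0 (aeval x h) = algebraMap K (AlgebraicClosure K) (constantCoeff h) := by
  rw [coeff_zero_aeval]
  have e : (fun i => PowerSeries.coeff 0 (x i)) = (0 : Fin 2 → AlgebraicClosure K) := by
    funext i
    fin_cases i
    · exact h0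
    · exact h1
  rw [e, aeval_zero]

end

/-- (P1) -/
theorem t_P1 : Bas → S_P1 := by
  intro hB K _ R _ M v hv h hh c0 c1 l hc0 hc1
  have key : ∀ x : Ac K (Fin 2), oc c0 (x 0) → oc c1 (x 1) →
      PowerSeries.coeff 0 (aeval x h) ≠ 0 := by
    intro x h0 h1
    rw [coeff_zero_at (oc_zero h0 hc0) (oc_zero h1 hc1)]
    exact fun h2 => hh ((map_eq_zero _).1 h2)
  split_ifs with hl
  · have e : A2 h c0 c1 l = FF K c0 c1 := by
      ext x
      simp only [A2, FF, Set.mem_ofPred_eq, hl]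
      constructor
      · rintro ⟨h0, h1, -⟩
        exact ⟨h0, h1⟩
      · rintro ⟨h0, h1⟩
        exact ⟨h0, h1, fun j hj => absurd hj (Nat.not_lt_zero j), key x h0 h1⟩
    rw [e, (vFF M v hv hB c0 c1).2]
  · have e : A2 h c0 c1 l = ∅ := by
      ext x
      simp only [A2, Set.mem_ofPred_eq, Set.mem_empty_iff_false, iff_false]
      rintro ⟨h0, h1, h2⟩
      exact key x h0 h1 (h2.1 0 (Nat.pos_of_ne_zero hl))
    rw [e]
    exact (hB.v1 M v hv (σ := Fin 2)).2.2.2.2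

/-- (P3) -/
theorem t_P3 : Bas → S_P3 := by
  intro hB K _ R _ M v hv h c0 c1 l
  have h1 := (hB.re M v hv (Equiv.swap (0 : Fin 2) 1) (A2 h c0 c1 l)
    (cyl_A2 M v hv hB.v1 hB.cc h c0 c1 l)).2
  rw [← h1]
  congr 1
  ext x
  simp only [A2, Set.mem_ofPred_eq, aeval_rename, Equiv.swap_apply_left, Equiv.swap_apply_right]
  have e : (x ∘ (Equiv.swap (0 : Fin 2) 1)) = fun i => x ((Equiv.swap (0 : Fin 2) 1) i) := rfl
  rw [e]
  tauto

end Pool.Agent.J4H40.YJ
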